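import Pool.Agent.Y922.IZ.Stm

set_option autoImplicit false

namespace Pool.Agent.Y448.IZ

open Filter Topology
open Pool.Agent.Y922.IZ

theorem t_INV : S_INV := by
  intro F K hK hF hinj hd
  have hloc : ∀ s ∈ K, ∃ u ∈ 𝓝 s, Set.InjOn F u := by
    intro s hs
    have h := ((hF s hs).hasStrictDerivAt).eventually_left_inverse (hd s hs)
    refine ⟨_, h, ?_⟩
    intro a ha b hb hab
    simp only [Set.mem_ofPred_eq] at ha hb
    rw [← ha, ← hb, hab]
  obtain ⟨t, ht, hti⟩ := hinj.exists_mem_nhdsSet hK (fun s hs => (hF s hs).continuousAt) hloc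
  refine ⟨Function.invFunOn F t, ?_⟩
  intro s hs
  have hts : t ∈ 𝓝 s := (mem_nhdsSet_iff_forall.1 ht) s hs
  have hev : ∀ᶠ z in 𝓝 s, Function.invFunOn F t (F z) = z := by
    filter_upwards [hts] with z hz
    exact hti.leftInvOn_invFunOn hz
  refine ⟨?_, hev⟩
  rw [← analyticAt_comp_iff_of_deriv_ne_zero (hF s hs) (hd s hs)]
  refine (analyticAt_id (𝕜 := ℂ) (z := s)).congr ?_
  filter_upwards [hev] with z hz
  exact hz.symm

end Pool.Agent.Y448.IZ
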